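import Pool.Agent.VU.Defs

/-!
# VU: the virtual dimension of the residual system
-/

set_option autoImplicit false
set_option linter.unusedSectionVars false

namespace Pool.Agent.VU

open Finset Pool.Agent.H51.TB Pool.Agent.V7 Pool.Agent.V7.ST

private theorem Res_add {M j : ℕ} {W W' : ℕ → Finset ℕ → ℕ} (hR : Rem j W W')
    (hp' : 1 ≤ W' (M - 1) ∅) {τ : Kd} (hτ : τ.Ok M j) :
    wtI M W (τ.add j) + wtI M W' τ = wtI M W τ := by
  rcases τ with ⟨μ, I⟩ | ⟨i, I⟩
  · have h2 := hR (μ - 1) I hτ.2.2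
    show W (μ - 1) (insert j I) + W' (μ - 1) I = W (μ - 1) I
    omega
  · have h2 := hR (M - 1) I fun x hx => mem_range.2 (mem_Ico.1 (hτ.2 hx)).2
    show W (M - 1) (insert j I) - (if insert j I = ∅ then 1 else 0) +
      (W' (M - 1) I - if I = ∅ then 1 else 0) = W (M - 1) I - if I = ∅ then 1 else 0
    rw [if_neg (insert_ne_empty j I)]
    split_ifs with h3
    · subst h3
      omega
    · omega

private theorem Res_sum {M j : ℕ} {W W' : ℕ → Finset ℕ → ℕ} (hR : Rem j W W')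
    (hp' : 1 ≤ W' (M - 1) ∅) (s : Multiset Kd) (h : ∀ τ ∈ s, τ.Ok M j) :
    ((s.map (Kd.add j)).map (wtI M W)).sum + (s.map (wtI M W')).sum = (s.map (wtI M W)).sum := by
  induction s using Multiset.induction_on with
  | empty => rfl
  | cons k s ih =>
    have h1 := ih fun k' hk' => h k' (Multiset.mem_cons_of_mem hk')
    have h2 := Res_add hR hp' (h k (Multiset.mem_cons_self k s))
    rw [Multiset.map_cons, Multiset.map_cons, Multiset.map_cons, Multiset.map_cons,
      Multiset.sum_cons, Multiset.sum_cons, Multiset.sum_cons]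
    omega

private theorem Res_sj {M j : ℕ} {W : ℕ → Finset ℕ → ℕ} (hp : 1 ≤ W (M - 1) ∅) :
    wtI M W (.sw j ∅) + 1 = wtI M W (.ord M ∅) := by
  show W (M - 1) (∅ : Finset ℕ) - (if (∅ : Finset ℕ) = ∅ then 1 else 0) + 1 =
    W (M - 1) (∅ : Finset ℕ)
  rw [if_pos rfl]
  omega

/-- N1 (Pool/Agent/VU/Num/Res.lean), as V8 `vd_resW`. -/
theorem vd_resI (M j : ℕ) (hM : 1 ≤ M) (W W' : ℕ → Finset ℕ → ℕ) (hR : Rem j W W')
    (hp : 1 ≤ W (M - 1) ∅) (hp' : 1 ≤ W' (M - 1) ∅) (sL sO : Multiset Kd) (y : ℕ)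
    (hL : ∀ τ ∈ sL, τ ∈ kds M j) (hO : ∀ τ ∈ sO, τ ∈ kds M j) :
    vdI M W (j + 1) (sL.map (Kd.add j) + sO + Multiset.replicate y (Kd.sw j ∅)) =
      vdI M W j (sL + sO + Multiset.replicate y (Kd.ord M ∅)) - vdI M W' j sL + y := by
  have h1 := hR (2 * M - 1) (range j) (Finset.Subset.refl _)
  rw [← range_add_one] at h1
  have h2 := Res_sum (M := M) hR hp' sL fun τ hτ => mem_kds.1 (hL τ hτ)
  have h3 := Res_sj (M := M) (j := j) hp
  have h4 : y * wtI M W (.sw j ∅) + y = y * wtI M W (.ord M ∅) := by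
    rw [← h3]
    ring
  unfold vdI
  simp only [Multiset.map_add, Multiset.sum_add, Multiset.map_replicate, Multiset.sum_replicate,
    smul_eq_mul]
  rw [h1, ← h2, ← h4]
  push_cast
  ring

end Pool.Agent.VU
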